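import Pool.Agent.Q324.MCut.Main

/-!
# MP_12d0d1_lc, Q2: Matching Cut is NP-complete on `S_{2,2,2,2}`-subgraph-free graphs
-/

namespace Pool.Agent.Results.MP_12d0d1_lc.MatchingCutNPComplete

open Pool.Agent.NPC Pool.Agent.H692R2 Pool.Agent.Q324.MCut

/-- **Matching Cut is `NP`-complete on `S_{2,2,2,2}`-subgraph-free graphs**: the set of the finite
graphs (given by their adjacency matrices) which contain no copy of `S_{2,2,2,2}` and have a
matching cut is in `NP` and `NP`-hard under polynomial-time many-one reductions. -/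
theorem result :
    InNPP (fun G : FinGraph => S2222.Free G.graph ∧ HasMatchingCut G.graph) ∧
    NPHardP (fun G : FinGraph => S2222.Free G.graph ∧ HasMatchingCut G.graph) := by
  refine ⟨inNP_mcut, ?_⟩
  have h : HardPr (fun G : FinGraph => S2222.Free G.graph)
      (fun G : FinGraph => S2222.Free G.graph ∧ HasMatchingCut G.graph) :=
    hard_mcut.trans Poly.id (fun _ h => h) (fun _ h => ⟨fun h' => ⟨h, h'⟩, fun h' => h'.2⟩)
  exact h.toHardI.toNPHardP

end Pool.Agent.Results.MP_12d0d1_lc.MatchingCutNPComplete
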